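import Pool.Agent.H41.ET.Defs

set_option autoImplicit false

namespace Pool.Agent.H16.ET.GK

open Pool.Agent.H41.ET

theorem two_mul_d (d : ℕ) (hd : 1 ≤ d) : (2 : ZMod (2 * d - 1)) * (d : ZMod (2 * d - 1)) = 1 := by
  have h : ((2 * d : ℕ) : ZMod (2 * d - 1)) = ((2 * d - 1 : ℕ) : ZMod (2 * d - 1)) + 1 := by
    rw [← Nat.cast_succ]
    congr 1
    omega
  rw [ZMod.natCast_self, zero_add] at h
  rw [← h]
  push_cast
  rfl

theorem gk_none (d : ℕ) (t : ZMod (2 * d - 1)) : gk d t none = some (t * (d : ZMod (2 * d - 1))) :=
  rfl

theorem gk_some (d : ℕ) (t x : ZMod (2 * d - 1)) :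
    gk d t (some x) = if 2 * x = t then none else some (t - x) := rfl

theorem gk_facts : S_GK := by
  intro d hd
  have h2 := two_mul_d d hd
  refine ⟨fun t => ⟨?_, ?_⟩, ?_⟩
  · intro x
    rcases x with _ | x
    · rw [gk_none, gk_some, if_pos]
      linear_combination t * h2
    · rw [gk_some]
      by_cases h : 2 * x = t
      · rw [if_pos h, gk_none]
        congr 1
        rw [← h]
        linear_combination x * h2
      · rw [if_neg h, gk_some, if_neg]
        · rw [sub_sub_cancel]
        · intro h3
          apply h
          linear_combination -h3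
  · intro x
    rcases x with _ | x
    · rw [gk_none]
      exact Option.some_ne_none _
    · rw [gk_some]
      by_cases h : 2 * x = t
      · rw [if_pos h]
        exact (Option.some_ne_none _).symm
      · rw [if_neg h]
        intro h3
        have h4 := Option.some.inj h3
        apply h
        linear_combination -h4
  · intro t s x h
    rcases x with _ | x
    · rw [gk_none, gk_none] at h
      have h4 := Option.some.inj h
      linear_combination (2 : ZMod (2 * d - 1)) * h4 - (t - s) * h2
    · rw [gk_some, gk_some] at h
      by_cases h5 : 2 * x = t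
      · by_cases h6 : 2 * x = s
        · rw [← h5, ← h6]
        · rw [if_pos h5, if_neg h6] at h
          exact absurd h.symm (Option.some_ne_none _)
      · by_cases h6 : 2 * x = s
        · rw [if_neg h5, if_pos h6] at h
          exact absurd h (Option.some_ne_none _)
        · rw [if_neg h5, if_neg h6] at h
          have h4 := Option.some.inj h
          linear_combination h4

end Pool.Agent.H16.ET.GK
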